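import Pool.Agent.helper10.V3.SpecL

set_option autoImplicit false

open Complex Metric Set Filter Topology MeasureTheory MPS

noncomputable section

namespace V3S

theorem NCH_root (ζ : ℂ) (h : ‖ζ - 1‖ ≤ 1 / 20) :
    Complex.exp (Complex.log ζ / 2) ^ 2 = ζ ∧ ‖Complex.exp (Complex.log ζ / 2) - 1‖ ≤ 1 / 39 ∧
      ζ ∈ slitPlane := by
  have hre : 0 < ζ.re := by
    have h1 := Complex.abs_re_le_norm (ζ - 1)
    have h2 := abs_le.1 h1
    simp only [sub_re, one_re] at h2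
    linarith [h2.1]
  have hsl : ζ ∈ slitPlane := Or.inl hre
  have h0 : ζ ≠ 0 := slitPlane_ne_zero hsl
  have hsq : Complex.exp (Complex.log ζ / 2) ^ 2 = ζ := by
    rw [← Complex.exp_nat_mul]
    have : ((2 : ℕ) : ℂ) * (Complex.log ζ / 2) = Complex.log ζ := by
      push_cast
      ring
    rw [this, Complex.exp_log h0]
  refine ⟨hsq, ?_, hsl⟩
  obtain ⟨κ, hκ⟩ : ∃ κ, κ = Complex.exp (Complex.log ζ / 2) := ⟨_, rfl⟩
  rw [← hκ] at hsq ⊢
  have hκre : 0 < κ.re := by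
    rw [hκ, Complex.exp_re]
    refine mul_pos (Real.exp_pos _) ?_
    have him : (Complex.log ζ / 2).im = Complex.arg ζ / 2 := by
      rw [show Complex.log ζ / 2 = Complex.log ζ / ((2 : ℝ) : ℂ) by norm_num, Complex.div_ofReal_im,
        Complex.log_im]
    rw [him]
    have h1 := Complex.arg_le_pi ζ
    have h2 := Complex.neg_pi_lt_arg ζ
    have h3 : Complex.arg ζ ≠ Real.pi := (Complex.mem_slitPlane_iff_arg.1 hsl).1
    have h4 : Complex.arg ζ < Real.pi := lt_of_le_of_ne h1 h3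
    exact Real.cos_pos_of_mem_Ioo ⟨by linarith, by linarith⟩
  have hfac : ‖κ - 1‖ * ‖κ + 1‖ ≤ 1 / 20 := by
    rw [← norm_mul]
    have : (κ - 1) * (κ + 1) = ζ - 1 := by
      rw [← hsq]
      ring
    rw [this]
    exact h
  have h1 : 1 ≤ ‖κ + 1‖ := by
    have := Complex.re_le_norm (κ + 1)
    simp only [add_re, one_re] at this
    linarith
  have h2 : ‖κ - 1‖ ≤ 1 / 20 := by nlinarith [norm_nonneg (κ - 1)]
  have h3 : 39 / 20 ≤ ‖κ + 1‖ := by
    have h4 : (2 : ℂ) = (κ + 1) - (κ - 1) := by ring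
    have h5 : ‖(2 : ℂ)‖ ≤ ‖κ + 1‖ + ‖κ - 1‖ := by
      rw [h4]
      exact norm_sub_le _ _
    have h6 : ‖(2 : ℂ)‖ = 2 := by norm_num
    linarith
  nlinarith [norm_nonneg (κ - 1)]

theorem NCH : NCH_stmt := by
  intro B y ρ hρ hB hy hBz
  have hyb : y ∈ ball y ρ := mem_ball_self hρ
  obtain ⟨s0, hs0⟩ : ∃ s0 : ℂ, s0 ^ 2 = B y := by
    obtain ⟨s, hs⟩ := IsAlgClosed.exists_pow_nat_eq (B y) (n := 2) (by norm_num)
    exact ⟨s, hs⟩
  have hs0ne : s0 ≠ 0 := by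
    intro h
    rw [h] at hs0
    apply hy
    rw [← hs0]
    norm_num
  have hs0n : ‖s0‖ = Real.sqrt ‖B y‖ := by
    rw [← hs0, norm_pow, Real.sqrt_sq (norm_nonneg _)]
  obtain ⟨κ, hκ⟩ : ∃ κ : ℂ → ℂ, κ = fun z => Complex.exp (Complex.log (B z / B y) / 2) := ⟨_, rfl⟩
  have hκ2 : ∀ z ∈ ball y ρ, κ z ^ 2 = B z / B y := by
    intro z hz
    rw [hκ]
    exact (NCH_root _ (hBz z hz)).1
  have hκ1 : ∀ z ∈ ball y ρ, ‖κ z - 1‖ ≤ 1 / 39 := by
    intro z hz
    rw [hκ]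
    exact (NCH_root _ (hBz z hz)).2.1
  have hκy : κ y = 1 := by
    rw [hκ]
    simp only
    rw [div_self hy, Complex.log_one]
    simp
  have hκd : DifferentiableOn ℂ κ (ball y ρ) := by
    rw [hκ]
    refine DifferentiableOn.cexp (DifferentiableOn.div_const (DifferentiableOn.clog
      (DifferentiableOn.div_const hB _) ?_) _)
    intro z hz
    exact (NCH_root _ (hBz z hz)).2.2
  have hκne : ∀ z ∈ ball y ρ, κ z ≠ 0 := by
    intro z hz h
    have := hκ1 z hz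
    rw [h] at this
    norm_num at this
  obtain ⟨T, hTy, hT⟩ := (hκd.isExactOn_ball).with_val_at y 0
  -- near the identity
  have happ : ApproximatesLinearOn T ((ContinuousLinearEquiv.refl ℂ ℂ : ℂ ≃L[ℂ] ℂ) : ℂ →L[ℂ] ℂ)
      (ball y ρ) (1 / 39) := by
    intro z hz z' hz'
    have hcv : Convex ℝ (ball y ρ) := convex_ball y ρ
    have h1 := hcv.norm_image_sub_le_of_norm_hasDerivWithin_le (f := fun x => T x - x)
      (f' := fun x => κ x - 1) (C := 1 / 39) (s := ball y ρ)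
      (fun x hx => ((hT x hx).sub (hasDerivAt_id x)).hasDerivWithinAt) (fun x hx => hκ1 x hx) hz' hz
    have h2 : T z - T z' - ((ContinuousLinearEquiv.refl ℂ ℂ : ℂ ≃L[ℂ] ℂ) : ℂ →L[ℂ] ℂ) (z - z') =
        (T z - z) - (T z' - z') := by
      simp
      ring
    rw [h2]
    push_cast
    exact h1
  have hN : ‖(((ContinuousLinearEquiv.refl ℂ ℂ : ℂ ≃L[ℂ] ℂ)).symm : ℂ →L[ℂ] ℂ)‖₊ = 1 := by
    ext
    simp
  have hc : Subsingleton ℂ ∨ (1 / 39 : NNReal) <
      ‖(((ContinuousLinearEquiv.refl ℂ ℂ : ℂ ≃L[ℂ] ℂ)).symm : ℂ →L[ℂ] ℂ)‖₊⁻¹ := by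
    right
    rw [hN, inv_one]
    rw [← NNReal.coe_lt_coe]
    push_cast
    norm_num
  obtain ⟨e, he⟩ : ∃ e, e = happ.toOpenPartialHomeomorph T (ball y ρ) hc isOpen_ball := ⟨_, rfl⟩
  have hecoe : ∀ z, e z = T z := by
    intro z
    rw [he]
    rfl
  have hesrc : e.source = ball y ρ := by
    rw [he]
    rfl
  have htgt : ball (0 : ℂ) (9 * ρ / 10) ⊆ e.target := by
    intro w hw
    have hw' : ‖w‖ < 9 * ρ / 10 := by simpa using hw
    have h1 := happ.closedBall_subset_target hc isOpen_ball (b := y) (ε := 19 * ρ / 20) (by linarith)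
      (fun z hz => by
        rw [mem_closedBall] at hz
        rw [mem_ball]
        linarith)
    rw [← he] at h1
    apply h1
    rw [hN, hTy, mem_closedBall, dist_zero_right]
    push_cast
    linarith
  obtain ⟨χ, hχ⟩ : ∃ χ : ℂ → ℂ, χ = fun w => e.symm (w / s0) := ⟨_, rfl⟩
  have hr : ∀ w ∈ ball (0 : ℂ) (9 * ρ * Real.sqrt ‖B y‖ / 10), w / s0 ∈ e.target := by
    intro w hw
    apply htgt
    rw [mem_ball, dist_zero_right] at hw ⊢
    rw [norm_div, hs0n, div_lt_iff₀ (by rw [← hs0n]; exact norm_pos_iff.2 hs0ne)]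
    calc ‖w‖ < 9 * ρ * Real.sqrt ‖B y‖ / 10 := hw
      _ = 9 * ρ / 10 * Real.sqrt ‖B y‖ := by ring
  have hmem : ∀ w ∈ ball (0 : ℂ) (9 * ρ * Real.sqrt ‖B y‖ / 10), χ w ∈ ball y ρ := by
    intro w hw
    have := e.map_target (hr w hw)
    rw [hesrc] at this
    rw [hχ]
    exact this
  have hder : ∀ w ∈ ball (0 : ℂ) (9 * ρ * Real.sqrt ‖B y‖ / 10),
      HasDerivAt χ ((κ (χ w))⁻¹ * (1 / s0)) w := by
    intro w hw
    have hm := hmem w hw
    have h1 : HasDerivAt e (κ (χ w)) (e.symm (w / s0)) := by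
      have h2 : HasDerivAt T (κ (χ w)) (χ w) := hT _ hm
      have h3 : (e : ℂ → ℂ) = T := funext hecoe
      rw [h3]
      rw [hχ] at h2 ⊢
      exact h2
    have h4 := e.hasDerivAt_symm (hr w hw) (hκne _ hm) h1
    have h5 : HasDerivAt (fun w : ℂ => w / s0) (1 / s0) w := (hasDerivAt_id w).div_const s0
    have h6 := HasDerivAt.comp w h4 h5
    rw [hχ] at h6 ⊢
    exact h6
  have hχ0 : χ 0 = y := by
    rw [hχ]
    simp only [zero_div]
    have h1 : e y = 0 := by rw [hecoe, hTy]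
    rw [← h1]
    exact e.left_inv (by rw [hesrc]; exact hyb)
  have hpos : 0 < 9 * ρ * Real.sqrt ‖B y‖ / 10 := by
    have : 0 < Real.sqrt ‖B y‖ := by
      rw [← hs0n]
      exact norm_pos_iff.2 hs0ne
    positivity
  refine ⟨χ, fun w hw => (hder w hw).differentiableAt.differentiableWithinAt, hχ0, ?_⟩
  intro w hw
  refine ⟨hmem w hw, ?_, ?_⟩
  · rw [(hder w hw).deriv]
    have h1 := hκ2 _ (hmem w hw)
    have h2 : B (χ w) = κ (χ w) ^ 2 * s0 ^ 2 := by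
      rw [h1, hs0]
      field_simp
    rw [h2]
    have h3 := hκne _ (hmem w hw)
    field_simp
  · rw [(hder w hw).deriv, (hder 0 (mem_ball_self hpos)).deriv, hχ0, hκy]
    have h3 := hκne _ (hmem w hw)
    have h4 : (κ (χ w))⁻¹ * (1 / s0) - (1 : ℂ)⁻¹ * (1 / s0) = ((κ (χ w))⁻¹ - 1) * (1 / s0) := by ring
    rw [h4, norm_mul, inv_one, one_mul]
    have h5 : ‖(κ (χ w))⁻¹ - 1‖ ≤ 1 / 10 := by
      have h6 : (κ (χ w))⁻¹ - 1 = (1 - κ (χ w)) / κ (χ w) := by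
        field_simp
      have h7 := hκ1 _ (hmem w hw)
      have h8 : 38 / 39 ≤ ‖κ (χ w)‖ := by
        have h9 : (1 : ℂ) = κ (χ w) - (κ (χ w) - 1) := by ring
        have h10 : ‖(1 : ℂ)‖ ≤ ‖κ (χ w)‖ + ‖κ (χ w) - 1‖ := by
          conv_lhs => rw [h9]
          exact norm_sub_le _ _
        rw [norm_one] at h10
        linarith
      rw [h6, norm_div, norm_sub_rev, div_le_iff₀ (by linarith)]
      linarith
    calc ‖(κ (χ w))⁻¹ - 1‖ * ‖1 / s0‖ ≤ 1 / 10 * ‖1 / s0‖ :=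
        mul_le_mul_of_nonneg_right h5 (norm_nonneg _)
      _ = ‖1 / s0‖ / 10 := by ring

end V3S
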