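import Pool.Agent.helper54.V3.SpecT

set_option autoImplicit false

open Complex Metric Set Filter Topology MeasureTheory

namespace V3

theorem NBD_near (hNPK : NPK_stmt) (c C ρ : ℝ) (hc : 0 < c) (hC : 0 ≤ C) (hρ : 1 ≤ ρ)
    (ι : Type) [Fintype ι] (p g : ι → ℂ) (x : ℂ)
    (hsep : ∀ i l, i ≠ l → c ≤ ‖p i - p l‖) (hg : ∀ i, ‖g i‖ ≤ C) (hx : ∀ i, c ≤ ‖x - p i‖) :
    ‖BF p g x - far p g (2 * ρ) x‖ ≤ (1 + 2 * (2 * ρ) / c) ^ 2 * (1 / c ^ 2 + C / c) := by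
  classical
  unfold BF far
  rw [← Finset.sum_sub_distrib]
  have h1 : ∀ i ∈ (Finset.univ : Finset ι),
      ‖(1 / (x - p i) ^ 2 + g i / (x - p i)) -
        (if 2 * ρ ≤ ‖p i‖ then (1 / (x - p i) ^ 2 + g i / (x - p i)) else 0)‖ ≤
      (if ‖p i‖ < 2 * ρ then (1 / c ^ 2 + C / c) else 0) := by
    intro i _
    by_cases h : ‖p i‖ < 2 * ρ
    · rw [if_pos h, if_neg (not_le.mpr h), sub_zero]
      have hxi := hx i
      have hgi := hg i
      have hpos : 0 < ‖x - p i‖ := lt_of_lt_of_le hc hxi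
      refine le_trans (norm_add_le _ _) (add_le_add ?_ ?_)
      · rw [norm_div, norm_one, norm_pow]
        exact one_div_le_one_div_of_le (pow_pos hc 2) (pow_le_pow_left₀ hc.le hxi 2)
      · rw [norm_div]
        exact div_le_div₀ hC hgi hc hxi
    · rw [if_neg h, if_pos (not_lt.mp h), sub_self, norm_zero]
  calc _ ≤ ∑ i, ‖(1 / (x - p i) ^ 2 + g i / (x - p i)) -
        (if 2 * ρ ≤ ‖p i‖ then (1 / (x - p i) ^ 2 + g i / (x - p i)) else 0)‖ := norm_sum_le _ _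
    _ ≤ ∑ i, (if ‖p i‖ < 2 * ρ then (1 / c ^ 2 + C / c) else 0) := Finset.sum_le_sum h1
    _ = ((Finset.univ.filter (fun i => ‖p i‖ < 2 * ρ)).card : ℝ) * (1 / c ^ 2 + C / c) := by
        rw [← Finset.sum_filter, Finset.sum_const, nsmul_eq_mul]
    _ ≤ _ := by
        refine mul_le_mul_of_nonneg_right ?_ (by positivity)
        exact hNPK ι p _ c (2 * ρ) hc (by linarith) (fun i _ l _ h => hsep i l h)
          (fun i hi => (Finset.mem_filter.mp hi).2)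

theorem NBD (hNPK : NPK_stmt) (hNFA : NFA_stmt) : NBD_stmt := by
  intro c C ρ hc hC hρ hcρ hCρ
  obtain ⟨K1, hK1, H⟩ := hNFA c C hc hC
  obtain ⟨F0, hF0⟩ : ∃ F0 : ℝ, F0 = C + (1 + 2 * (2 * ρ) / c) ^ 2 * (1 / c ^ 2 + C / c) := ⟨_, rfl⟩
  obtain ⟨A0, hA0⟩ : ∃ A0 : ℝ, A0 = F0 + K1 * ρ := ⟨_, rfl⟩
  refine ⟨K1 * ρ + (A0 + 2 * A0 / c * C) + 2 * A0 / c * ρ, ?_⟩
  intro ι _ p g x₁ x₂ hsep hg hx1 hx2 h12 hxp hB1 hB2 x hx
  obtain ⟨-, -, a, b, hab⟩ := H ι p g ρ hρ hcρ hsep hg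
  have hρ0 : 0 < ρ := by linarith
  have hq : ∀ y : ℂ, ‖y‖ ≤ ρ → ‖far p g (2 * ρ) y - a - b * y‖ ≤ K1 * ρ := by
    intro y hy
    refine le_trans (hab y (by simpa using hy)) ?_
    rw [div_le_iff₀ hρ0]
    have h2 : ‖y‖ ^ 2 ≤ ρ ^ 2 := pow_le_pow_left₀ (norm_nonneg _) hy 2
    nlinarith [mul_le_mul_of_nonneg_left h2 hK1]
  have hfar : ∀ y : ℂ, (∀ i, c ≤ ‖y - p i‖) → ‖BF p g y‖ ≤ C → ‖far p g (2 * ρ) y‖ ≤ F0 := by
    intro y hy hB
    have h1 := NBD_near hNPK c C ρ hc hC hρ ι p g y hsep hg hy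
    have h2 : far p g (2 * ρ) y = BF p g y - (BF p g y - far p g (2 * ρ) y) := by ring
    rw [h2, hF0]
    exact le_trans (norm_sub_le _ _) (add_le_add hB h1)
  have haff : ∀ y : ℂ, ‖y‖ ≤ ρ → ‖far p g (2 * ρ) y‖ ≤ F0 → ‖a + b * y‖ ≤ A0 := by
    intro y hy hF
    have h1 := hq y hy
    have h2 : a + b * y = far p g (2 * ρ) y - (far p g (2 * ρ) y - a - b * y) := by ring
    rw [h2, hA0]
    exact le_trans (norm_sub_le _ _) (add_le_add hF h1)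
  have e1 := haff x₁ (le_trans hx1 hCρ) (hfar x₁ (fun i => (hxp i).1) hB1)
  have e2 := haff x₂ (le_trans hx2 hCρ) (hfar x₂ (fun i => (hxp i).2) hB2)
  have hA0n : 0 ≤ A0 := le_trans (norm_nonneg _) e1
  have hb : ‖b‖ ≤ 2 * A0 / c := by
    rw [le_div_iff₀ hc]
    have h1 : ‖b‖ * c ≤ ‖b‖ * ‖x₁ - x₂‖ := mul_le_mul_of_nonneg_left h12 (norm_nonneg _)
    have h2 : ‖b‖ * ‖x₁ - x₂‖ = ‖(a + b * x₁) - (a + b * x₂)‖ := by
      rw [← norm_mul]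
      congr 1
      ring
    have h3 := norm_sub_le (a + b * x₁) (a + b * x₂)
    linarith
  have ha : ‖a‖ ≤ A0 + 2 * A0 / c * C := by
    have h1 : a = (a + b * x₁) - b * x₁ := by ring
    rw [h1]
    refine le_trans (norm_sub_le _ _) (add_le_add e1 ?_)
    rw [norm_mul]
    exact mul_le_mul hb hx1 (norm_nonneg _) (by positivity)
  have hxρ : ‖x‖ ≤ ρ := by simpa using hx
  have h1 := hq x hxρ
  have h2 : far p g (2 * ρ) x = (far p g (2 * ρ) x - a - b * x) + a + b * x := by ring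
  rw [h2]
  refine le_trans (norm_add_le _ _) (add_le_add (le_trans (norm_add_le _ _) (add_le_add h1 ha)) ?_)
  rw [norm_mul]
  exact mul_le_mul hb hxρ (norm_nonneg _) (by positivity)

end V3
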